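import Pool.Agent.Q100.RSE

/-!
# Bishop-Phelps-Bollobas property for RSE operators and uniform convexity

For every Banach space `X` whose dual is isometrically isomorphic to `ℓ₁` and every Banach space
`Y`, if the space of compact operators from `X` to `Y` has the BPBp-RSE, then `Y` is uniformly
convex (real scalars), respectively `ℂ`-uniformly convex (complex scalars).
The definitions are in `Pool/Agent/Q100/RSEDefs.lean`.
-/

set_option autoImplicit false

namespace Pool.Agent.Results.MP_88a444_an.UniformConvexity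

open Q100.RSE

universe u v

lemma real_case {X : Type u} [NormedAddCommGroup X] [NormedSpace ℝ X]
    {Y : Type v} [NormedAddCommGroup Y] [NormedSpace ℝ Y]
    (J : (X →L[ℝ] ℝ) ≃ₗᵢ[ℝ] lp (fun _ : ℕ => ℝ) 1) (hB : CompactBPBpRSE ℝ X Y) :
    RealUniformlyConvex Y := by
  intro ε hε
  obtain ⟨δ, hδ, hδ1, h⟩ := core J hB (ε / 3) (by positivity)
  refine ⟨δ, hδ, hδ1, fun y₁ y₂ h1 h2 h12 => ?_⟩
  have key := h ((1 / 2 : ℝ) • (y₁ + y₂)) ((1 / 2 : ℝ) • (y₁ - y₂)) ?_ ?_
  · rw [norm_smul] at key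
    norm_num at key
    linarith
  · intro s t hs ht
    rw [Real.norm_eq_abs] at hs ht
    have e : s • (1 / 2 : ℝ) • (y₁ + y₂) + t • (1 / 2 : ℝ) • (y₁ - y₂)
        = ((s + t) / 2) • y₁ + ((s - t) / 2) • y₂ := by
      module
    rw [e]
    refine (norm_add_le _ _).trans ?_
    rw [norm_smul, norm_smul, h1, h2, mul_one, mul_one, Real.norm_eq_abs, Real.norm_eq_abs]
    rw [abs_le] at hs ht
    rcases abs_cases ((s + t) / 2) with h3 | h3 <;> rcases abs_cases ((s - t) / 2) with h4 | h4 <;>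
      linarith [h3.1, h4.1, hs.1, hs.2, ht.1, ht.2]
  · rw [norm_smul]
    norm_num
    linarith

lemma complex_case {X : Type u} [NormedAddCommGroup X] [NormedSpace ℂ X]
    {Y : Type v} [NormedAddCommGroup Y] [NormedSpace ℂ Y]
    (J : (X →L[ℂ] ℂ) ≃ₗᵢ[ℂ] lp (fun _ : ℕ => ℂ) 1) (hB : CompactBPBpRSE ℂ X Y) :
    ComplexUniformlyConvex Y := by
  intro ε hε
  obtain ⟨δ, hδ, hδ1, h⟩ := core J hB ε hε
  refine ⟨δ, hδ, fun y₀ y₁ hw hy => ?_⟩
  by_contra hcon
  push Not at hcon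
  have hunit : ∀ z : ℂ, ∃ c : ℂ, ‖c‖ = 1 ∧ z = (‖z‖ : ℂ) * c := by
    intro z
    obtain ⟨c, hc, hc'⟩ := RCLike.exists_norm_mul_eq_self z
    exact ⟨c, hc, by rw [mul_comm]; exact hc'.symm⟩
  -- discs instead of circles
  have hdisc : ∀ w : ℂ, ‖w‖ ≤ 1 → ‖y₀ + w • y₁‖ ≤ 1 := by
    intro w hw1
    obtain ⟨c, hc, hc'⟩ := hunit w
    have e : y₀ + w • y₁ = (((1 + ‖w‖) / 2 : ℝ) : ℂ) • (y₀ + c • y₁)
        + (((1 - ‖w‖) / 2 : ℝ) : ℂ) • (y₀ + (-c) • y₁) := by
      conv_lhs => rw [hc']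
      push_cast
      module
    rw [e]
    refine (norm_add_le _ _).trans ?_
    rw [norm_smul, norm_smul, Complex.norm_real, Complex.norm_real, Real.norm_eq_abs,
      Real.norm_eq_abs, abs_of_nonneg (by positivity), abs_of_nonneg (by linarith)]
    have h1 := hw c hc
    have h2 := hw (-c) (by rw [norm_neg, hc])
    nlinarith [norm_nonneg w]
  have hdisc' : ∀ w : ℂ, ‖w‖ ≤ 1 → ‖w • y₀ + y₁‖ ≤ 1 := by
    have hw' : ∀ c : ℂ, ‖c‖ = 1 → ‖c • y₀ + y₁‖ ≤ 1 := by
      intro c hc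
      have hc0 : c ≠ 0 := by intro h0; rw [h0, norm_zero] at hc; norm_num at hc
      have h1 := hw c⁻¹ (by rw [norm_inv, hc, inv_one])
      have e : c • y₀ + y₁ = c • (y₀ + c⁻¹ • y₁) := by
        rw [smul_add, smul_smul, mul_inv_cancel₀ hc0, one_smul]
      rw [e, norm_smul, hc, one_mul]
      exact h1
    intro w hw1
    obtain ⟨c, hc, hc'⟩ := hunit w
    have e : w • y₀ + y₁ = (((1 + ‖w‖) / 2 : ℝ) : ℂ) • (c • y₀ + y₁)
        + (((1 - ‖w‖) / 2 : ℝ) : ℂ) • ((-c) • y₀ + y₁) := by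
      conv_lhs => rw [hc']
      push_cast
      module
    rw [e]
    refine (norm_add_le _ _).trans ?_
    rw [norm_smul, norm_smul, Complex.norm_real, Complex.norm_real, Real.norm_eq_abs,
      Real.norm_eq_abs, abs_of_nonneg (by positivity), abs_of_nonneg (by linarith)]
    have h1 := hw' c hc
    have h2 := hw' (-c) (by rw [norm_neg, hc])
    nlinarith [norm_nonneg w]
  have key := h y₀ y₁ (fun s t hs ht => ?_) hcon
  · linarith
  · rcases le_total ‖t‖ ‖s‖ with hts | hts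
    · by_cases hs0 : s = 0
      · subst hs0
        have : t = 0 := by simpa using hts
        simp [this]
      · have hs' : 0 < ‖s‖ := norm_pos_iff.mpr hs0
        have e : s • y₀ + t • y₁ = s • (y₀ + (t / s) • y₁) := by
          rw [smul_add, smul_smul, mul_div_cancel₀ _ hs0]
        rw [e, norm_smul]
        have h1 := hdisc (t / s) (by rw [norm_div, div_le_one hs']; exact hts)
        nlinarith [norm_nonneg (y₀ + (t / s) • y₁)]
    · by_cases ht0 : t = 0
      · subst ht0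
        have : s = 0 := by simpa using hts
        simp [this]
      · have ht' : 0 < ‖t‖ := norm_pos_iff.mpr ht0
        have e : s • y₀ + t • y₁ = t • ((s / t) • y₀ + y₁) := by
          rw [smul_add, smul_smul, mul_div_cancel₀ _ ht0]
        rw [e, norm_smul]
        have h1 := hdisc' (s / t) (by rw [norm_div, div_le_one ht']; exact hts)
        nlinarith [norm_nonneg ((s / t) • y₀ + y₁)]

/-- Full answer to Q1 (both scalar fields). -/
theorem result :
    (∀ (X : Type u) [NormedAddCommGroup X] [NormedSpace ℝ X] [CompleteSpace X]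
      (Y : Type v) [NormedAddCommGroup Y] [NormedSpace ℝ Y] [CompleteSpace Y],
      Nonempty ((X →L[ℝ] ℝ) ≃ₗᵢ[ℝ] lp (fun _ : ℕ => ℝ) 1) →
      CompactBPBpRSE ℝ X Y → RealUniformlyConvex Y) ∧
    (∀ (X : Type u) [NormedAddCommGroup X] [NormedSpace ℂ X] [CompleteSpace X]
      (Y : Type v) [NormedAddCommGroup Y] [NormedSpace ℂ Y] [CompleteSpace Y],
      Nonempty ((X →L[ℂ] ℂ) ≃ₗᵢ[ℂ] lp (fun _ : ℕ => ℂ) 1) →
      CompactBPBpRSE ℂ X Y → ComplexUniformlyConvex Y) := by
  refine ⟨?_, ?_⟩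
  · intro X _ _ _ Y _ _ _ ⟨J⟩ hB
    exact real_case J hB
  · intro X _ _ _ Y _ _ _ ⟨J⟩ hB
    exact complex_case J hB

end Pool.Agent.Results.MP_88a444_an.UniformConvexity
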